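import Pool.Agent.TH609.E3.Stm
import Pool.Agent.H337R2.LZ.F4
import Pool.Agent.H337R2.LZ.F5
import Pool.Agent.H337R2.LZ.F6
import Pool.Agent.H337R2.Asym

set_option autoImplicit false

open Polynomial Pool.Agent.H337R2 Filter Topology

namespace Pool.Agent.TH609.E3.W460

open Pool.Agent.TH609.E3

theorem fl_eq {c : Cell} {n p a : ℕ} (h0 : c.u0 * n < p * c.v0)
    (h1 : p * c.v1 ≤ c.u1 * n) (hv1 : 0 < c.v1)
    (ha : a * c.v0 ≤ (c.fl a + 1) * c.u0) : a * n / p = c.fl a := by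
  have hp : 0 < p := by
    rcases Nat.eq_zero_or_pos p with h | h
    · subst h; omega
    · exact h
  apply Nat.div_eq_of_lt_le
  · -- fl a * p ≤ a n
    have h2 : c.fl a * c.u1 ≤ a * c.v1 := Nat.div_mul_le_self _ _
    have h3 : (c.fl a * p) * c.v1 ≤ (a * n) * c.v1 := by
      calc (c.fl a * p) * c.v1 = c.fl a * (p * c.v1) := by ring
        _ ≤ c.fl a * (c.u1 * n) := Nat.mul_le_mul_left _ h1
        _ = (c.fl a * c.u1) * n := by ring
        _ ≤ (a * c.v1) * n := Nat.mul_le_mul_right _ h2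
        _ = (a * n) * c.v1 := by ring
    exact Nat.le_of_mul_le_mul_right h3 hv1
  · have h3 : (a * n) * c.v0 < ((c.fl a + 1) * p) * c.v0 := by
      calc (a * n) * c.v0 = (a * c.v0) * n := by ring
        _ ≤ ((c.fl a + 1) * c.u0) * n := Nat.mul_le_mul_right _ ha
        _ = (c.fl a + 1) * (c.u0 * n) := by ring
        _ < (c.fl a + 1) * (p * c.v0) := Nat.mul_lt_mul_of_pos_left h0 (Nat.succ_pos _)
        _ = _ := by ring
    exact Nat.lt_of_mul_lt_mul_right h3

/-- the factorial part in a cell -/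
theorem F4 : StF4 := by
  intro c hc n p hn hp h0 h1
  unfold Cell.ok at hc
  simp only [Bool.and_eq_true, decide_eq_true_eq, List.all_cons, List.all_nil] at hc
  obtain ⟨⟨⟨⟨⟨⟨⟨⟨hu0, hv0⟩, hu1⟩, hv1⟩, huv⟩, hfl⟩, _⟩, _⟩, _⟩ := hc
  have e2 := fl_eq (a := 4) h0 h1 hv1 (by omega)
  have s2 := Pool.Agent.LZ.F4x.sum_div p hp (4 * n)
  rw [e2] at s2
  unfold Cell.sf
  rw [Nat.cast_mul]
  push_cast at s2 ⊢
  linear_combination s2

/-- factorials: the small prime part -/
theorem F5 : StF5 := by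
  unfold StF5
  filter_upwards [eventually_ge_atTop 30000] with n hn
  have h1 := Pool.Agent.LZ.F5_part n (4 * n) hn (by omega)
  rw [← Finset.mul_sum]
  have h2 : ∑ p ∈ PR (1 / 40) 12 n,
        ((2 * ∑ i ∈ Finset.range (4 * n), (i / p) : ℕ) : ℝ) * Real.log p =
      2 * ∑ p ∈ Pool.Agent.LZ.PR (1 / 40) 14 n,
        ((∑ i ∈ Finset.range (4 * n), (i / p) : ℕ) : ℝ) * Real.log p := by
    have h3 : ∑ p ∈ Pool.Agent.LZ.PR (1 / 40) 12 n,
        ((∑ i ∈ Finset.range (4 * n), (i / p) : ℕ) : ℝ) * Real.log p =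
        ∑ p ∈ Pool.Agent.LZ.PR (1 / 40) 14 n,
        ((∑ i ∈ Finset.range (4 * n), (i / p) : ℕ) : ℝ) * Real.log p := by
      refine Finset.sum_subset ?_ ?_
      · intro p hp
        unfold Pool.Agent.LZ.PR at hp ⊢
        rw [Finset.mem_filter] at hp ⊢
        obtain ⟨a, b, c, d⟩ := hp
        refine ⟨a, b, c, d.trans ?_⟩
        have : (0 : ℚ) ≤ n := by positivity
        linarith
      · intro p hp hp2
        unfold Pool.Agent.LZ.PR at hp hp2
        rw [Finset.mem_filter] at hp hp2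
        obtain ⟨a, b, c, d⟩ := hp
        have h4 : ¬ ((p : ℚ) ≤ 12 * n) := fun h => hp2 ⟨a, b, c, h⟩
        have h5 : 12 * n < p := by
          rw [not_le] at h4
          exact_mod_cast h4
        have h6 : ∑ i ∈ Finset.range (4 * n), (i / p) = 0 := by
          refine Finset.sum_eq_zero fun i hi => ?_
          rw [Finset.mem_range] at hi
          exact Nat.div_eq_of_lt (by omega)
        rw [h6]
        simp
    rw [← h3, Finset.mul_sum]
    refine Finset.sum_congr rfl fun p _ => ?_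
    push_cast
    ring
  rw [h2]
  linarith

noncomputable section

/-- `32 log 2 - 24 = -1.8193` -/
theorem F6 : StF6 := by
  intro ε hε
  have hlog : Tendsto (fun x : ℝ => Real.log x / x) atTop (𝓝 0) := by
    have := Real.isLittleO_log_id_atTop.tendsto_div_nhds_zero
    simpa using this
  have h4 : Tendsto (fun n : ℕ => (4 * (n : ℝ))) atTop atTop :=
    tendsto_natCast_atTop_atTop.const_mul_atTop (by norm_num)
  have hl2 := (hlog.comp h4).eventually (gt_mem_nhds (show (0 : ℝ) < ε / 32 by positivity))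
  filter_upwards [hl2, eventually_ge_atTop 1] with n h1 hn
  have hn' : (1 : ℝ) ≤ n := by exact_mod_cast hn
  have hn0 : (0 : ℝ) < n := by linarith
  have h2 := Pool.Agent.LZ.F6_low (K := 4 * n) (by omega)
  have e4 : Pool.Agent.LZ.F6_G ((4 * n : ℕ) : ℝ) = 8 * (n : ℝ) ^ 2 * Real.log n +
      (8 * Real.log 4 - 12) * (n : ℝ) ^ 2 := by
    unfold Pool.Agent.LZ.F6_G
    push_cast
    rw [Real.log_mul (by norm_num) hn0.ne']
    ring
  rw [e4] at h2
  push_cast at h2
  have h8 : Real.log (4 * n) < ε / 32 * (4 * n) := by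
    have h9 : Real.log (4 * (n : ℝ)) / (4 * n) < ε / 32 := h1
    rwa [div_lt_iff₀ (by positivity)] at h9
  have h10 : (4 * (n : ℝ)) * Real.log (4 * n) ≤ ε / 2 * (n : ℝ) ^ 2 := by
    have := mul_le_mul_of_nonneg_left h8.le (show (0 : ℝ) ≤ 4 * n by positivity)
    refine this.trans (le_of_eq ?_)
    ring
  have h11 : (-(182 / 200) : ℝ) ≤ 8 * Real.log 4 - 12 := by
    have := Real.log_two_gt_d9
    have e : Real.log 4 = 2 * Real.log 2 := by
      rw [show (4 : ℝ) = 2 ^ 2 by norm_num, Real.log_pow]; push_cast; ring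
    rw [e]
    linarith
  have h12 := mul_le_mul_of_nonneg_right h11 (show (0 : ℝ) ≤ (n : ℝ) ^ 2 by positivity)
  nlinarith [h2, h10, h12]

/-- small primes: trivial exponents -/
theorem F7 : StF7 := by
  intro ε hε
  filter_upwards [rpow_lim 17 (by norm_num) (ε / 8960) (by positivity),
    theta_lim (1 / 40) (by norm_num) (ε / 56) (by positivity), eventually_ge_atTop 1] with n h1 h2 hn
  have hn0 : (1 : ℝ) ≤ n := by exact_mod_cast hn
  have hM1 : (1 : ℝ) ≤ 16 * (n : ℝ) + 1 := by linarith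
  have hlog0 : 0 ≤ Real.log (16 * (n : ℝ) + 1) := Real.log_nonneg hM1
  -- second sum
  have hS2 : ∑ p ∈ (Finset.range (n + 1)).filter (fun p : ℕ => p.Prime ∧ 40 * p ≤ n), Real.log (p : ℝ) ≤
      Chebyshev.theta (1 / 40 * n) := by
    unfold Chebyshev.theta
    apply Finset.sum_le_sum_of_subset_of_nonneg
    · intro p hp
      rw [Finset.mem_filter] at hp
      rw [Finset.mem_filter, Finset.mem_Ioc]
      refine ⟨⟨hp.2.1.pos, ?_⟩, hp.2.1⟩
      rw [Nat.le_floor_iff (by positivity)]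
      have : ((40 * p : ℕ) : ℝ) ≤ (n : ℝ) := by exact_mod_cast hp.2.2
      push_cast at this
      linarith
    · intro p hp _
      rw [Finset.mem_filter] at hp
      exact Real.log_nonneg (by exact_mod_cast hp.2.one_lt.le)
  -- first sum
  have hcard : (((Finset.range (n + 1)).filter (fun p : ℕ => p.Prime ∧ p ^ 2 ≤ 16 * n)).card : ℝ) ≤
      (Nat.sqrt (16 * n) : ℝ) + 1 := by
    have hsub : (Finset.range (n + 1)).filter (fun p : ℕ => p.Prime ∧ p ^ 2 ≤ 16 * n) ⊆
        Finset.range (Nat.sqrt (16 * n) + 1) := by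
      intro p hp
      rw [Finset.mem_filter] at hp
      rw [Finset.mem_range]
      have : p ≤ Nat.sqrt (16 * n) := Nat.le_sqrt'.2 hp.2.2
      omega
    have := Finset.card_le_card hsub
    rw [Finset.card_range] at this
    exact_mod_cast this
  have hS1 : ∑ p ∈ (Finset.range (n + 1)).filter (fun p : ℕ => p.Prime ∧ p ^ 2 ≤ 16 * n),
        40 * Real.log (16 * (n : ℝ) + 1) ≤ ε / 28 * n := by
    rw [Finset.sum_const, nsmul_eq_mul]
    have h3 : Real.log (16 * (n : ℝ) + 1) ≤ (16 * (n : ℝ) + 1) ^ (1 / 4 : ℝ) / (1 / 4) :=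
      Real.log_le_rpow_div (by positivity) (by norm_num)
    have h4 : ((Nat.sqrt (16 * n) : ℕ) : ℝ) + 1 ≤ 2 * (16 * (n : ℝ) + 1) ^ (1 / 2 : ℝ) := by
      have h5 : ((Nat.sqrt (16 * n) : ℕ) : ℝ) ≤ Real.sqrt (16 * (n : ℝ) + 1) := by
        apply Real.le_sqrt_of_sq_le
        have := Nat.sqrt_le' (16 * n)
        exact_mod_cast (by omega : Nat.sqrt (16 * n) ^ 2 ≤ 16 * n + 1)
      rw [← Real.sqrt_eq_rpow]
      have h6 : 1 ≤ Real.sqrt (16 * (n : ℝ) + 1) := by
        rw [Real.one_le_sqrt]; exact hM1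
      linarith
    have h5 : (16 * (n : ℝ) + 1) ^ (3 / 4 : ℝ) ≤ ε / 8960 * n := by
      refine le_trans ?_ h1
      apply Real.rpow_le_rpow (by positivity) (by linarith) (by norm_num)
    have h6 : (16 * (n : ℝ) + 1) ^ (1 / 2 : ℝ) * (16 * (n : ℝ) + 1) ^ (1 / 4 : ℝ) = (16 * (n : ℝ) + 1) ^ (3 / 4 : ℝ) := by
      rw [← Real.rpow_add (by positivity)]; norm_num
    have h7 : 0 ≤ (16 * (n : ℝ) + 1) ^ (1 / 2 : ℝ) := by positivity
    have h8 : 0 ≤ (16 * (n : ℝ) + 1) ^ (1 / 4 : ℝ) := by positivity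
    calc _ ≤ (2 * (16 * (n : ℝ) + 1) ^ (1 / 2 : ℝ)) * (40 * ((16 * (n : ℝ) + 1) ^ (1 / 4 : ℝ) / (1 / 4))) := by
          apply mul_le_mul (hcard.trans h4) _ (by positivity) (by positivity)
          linarith
      _ = 320 * ((16 * (n : ℝ) + 1) ^ (1 / 2 : ℝ) * (16 * (n : ℝ) + 1) ^ (1 / 4 : ℝ)) := by ring
      _ = 320 * (16 * (n : ℝ) + 1) ^ (3 / 4 : ℝ) := by rw [h6]
      _ ≤ 320 * (ε / 8960 * n) := mul_le_mul_of_nonneg_left h5 (by norm_num)
      _ = ε / 28 * n := by ring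
  rw [abs_le] at h2
  have hT : Chebyshev.theta (1 / 40 * n) ≤ (1 / 40 + ε / 56) * n := by
    have := h2.2
    linarith
  have hn6 : 0 ≤ 4 * (n : ℝ) := by positivity
  have hn7 : 0 ≤ 12 * (n : ℝ) := by positivity
  calc _ ≤ 4 * (n : ℝ) * (ε / 28 * n) + 12 * (n : ℝ) * ((1 / 40 + ε / 56) * n) :=
        add_le_add (mul_le_mul_of_nonneg_left hS1 hn6)
          (mul_le_mul_of_nonneg_left (hS2.trans hT) hn7)
    _ ≤ (12 / 40 + ε) * (n : ℝ) ^ 2 := by
        have h0 : 0 ≤ ε * (n : ℝ) ^ 2 := by positivity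
        nlinarith

end

end Pool.Agent.TH609.E3.W460
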